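import Mathlib

set_option autoImplicit false

namespace Pool.Agent.H46.WC

open Equiv

variable {V : Type*} [AddCommGroup V]

/-- Operators behaving like the transpositions of a finitary symmetric group. -/
structure Transp (t : ℕ → ℕ → V →+ V) : Prop where
  symm : ∀ x y, x ≠ y → ∀ v, t x y v = t y x v
  inv : ∀ x y, x ≠ y → ∀ v, t x y (t x y v) = v
  conj : ∀ a b x y, a ≠ b → x ≠ y → ∀ v,
    t a b (t x y v) = t (swap a b x) (swap a b y) (t a b v)

theorem Transp.neg {t : ℕ → ℕ → V →+ V} (h : Transp t) : Transp (fun x y => -(t x y)) where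
  symm x y hxy v := by simp [h.symm x y hxy]
  inv x y hxy v := by simp [h.inv x y hxy]
  conj a b x y hab hxy v := by
    have := h.conj a b x y hab hxy v
    simp [this]

/-- `v` is invariant under the transpositions inside `S`. -/
def Inv (t : ℕ → ℕ → V →+ V) (S : Finset ℕ) (v : V) : Prop :=
  ∀ x ∈ S, ∀ y ∈ S, x ≠ y → t x y v = v

theorem Transp.comm {t : ℕ → ℕ → V →+ V} (h : Transp t) {a b x y : ℕ} (hab : a ≠ b) (hxy : x ≠ y)
    (h1 : x ≠ a) (h2 : x ≠ b) (h3 : y ≠ a) (h4 : y ≠ b) (v : V) :
    t a b (t x y v) = t x y (t a b v) := by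
  rw [h.conj a b x y hab hxy, swap_apply_of_ne_of_ne h1 h2, swap_apply_of_ne_of_ne h3 h4]

theorem Transp.inv_insert {t : ℕ → ℕ → V →+ V} (h : Transp t) {S : Finset ℕ} {v : V}
    (hv : Inv t S v) {x : ℕ} (hx : x ∉ S) : Inv t (insert x S) (v + ∑ y ∈ S, t x y v) := by
  have hne : ∀ y ∈ S, x ≠ y := fun y hy e => hx (e ▸ hy)
  -- the case of a transposition inside S
  have case1 : ∀ a ∈ S, ∀ b ∈ S, a ≠ b →
      t a b (v + ∑ y ∈ S, t x y v) = v + ∑ y ∈ S, t x y v := by
    intro a ha b hb hab
    rw [map_add, map_sum, hv a ha b hb hab]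
    congr 1
    have : ∀ y ∈ S, t a b (t x y v) = t x (swap a b y) v := by
      intro y hy
      rw [h.conj a b x y hab (hne y hy), hv a ha b hb hab,
        swap_apply_of_ne_of_ne (hne a ha) (hne b hb)]
    rw [Finset.sum_congr rfl this]
    apply Finset.sum_nbij' (fun y => swap a b y) (fun y => swap a b y)
    · intro y hy
      show swap a b y ∈ S
      rw [swap_apply_def]
      split_ifs <;> assumption
    · intro y hy
      show swap a b y ∈ S
      rw [swap_apply_def]
      split_ifs <;> assumption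
    · intro y _
      simp
    · intro y _
      simp
    · intro y _
      rfl
  have case2 : ∀ b ∈ S, t x b (v + ∑ y ∈ S, t x y v) = v + ∑ y ∈ S, t x y v := by
    intro b hb
    rw [map_add, map_sum]
    rw [← Finset.add_sum_erase S _ hb, ← Finset.add_sum_erase S (fun y => t x y v) hb]
    rw [h.inv x b (hne b hb)]
    have : ∀ y ∈ S.erase b, t x b (t x y v) = t x y v := by
      intro y hy
      rw [Finset.mem_erase] at hy
      have hyS := hy.2
      rw [h.conj x b x y (hne b hb) (hne y hyS), swap_apply_left,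
        swap_apply_of_ne_of_ne (hne y hyS).symm hy.1]
      rw [h.conj b y x b hy.1.symm (hne b hb), swap_apply_left,
        swap_apply_of_ne_of_ne (hne b hb) (hne y hyS), hv b hb y hyS hy.1.symm]
    rw [Finset.sum_congr rfl this]
    abel
  intro a ha b hb hab
  rw [Finset.mem_insert] at ha hb
  rcases ha with rfl | ha
  · rcases hb with rfl | hb
    · exact absurd rfl hab
    · exact case2 b hb
  · rcases hb with rfl | hb
    · rw [h.symm a b hab]
      exact case2 a ha
    · exact case1 a ha b hb hab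

/-- sign version of the previous lemma -/
theorem Transp.sgn_insert {t : ℕ → ℕ → V →+ V} (h : Transp t) {S : Finset ℕ} {v : V}
    (hv : Inv (fun x y => -(t x y)) S v) {x : ℕ} (hx : x ∉ S) :
    Inv (fun x y => -(t x y)) (insert x S) (v - ∑ y ∈ S, t x y v) := by
  have := h.neg.inv_insert hv hx
  convert this using 1
  simp [sub_eq_add_neg]

/-- `W` is stable under the transpositions off `P`. -/
def Stable (t : ℕ → ℕ → V →+ V) (P : Finset ℕ) (W : AddSubgroup V) : Prop :=
  ∀ x y, x ≠ y → x ∉ P → y ∉ P → ∀ v ∈ W, t x y v ∈ W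

/-- There is no nonzero vector of `W` invariant for a set of size `s` off `P`. -/
def NoInv (t : ℕ → ℕ → V →+ V) (P : Finset ℕ) (W : AddSubgroup V) (s : ℕ) : Prop :=
  ∀ S : Finset ℕ, S.card = s → Disjoint S P → ∀ v ∈ W, Inv t S v → v = 0

theorem garnir {t : ℕ → ℕ → V →+ V} (h : Transp t) {P : Finset ℕ} {W : AddSubgroup V}
    (hW : Stable t P W) {r : ℕ} (hno : NoInv t P W (r+1)) {R : Finset ℕ} (hR : R.card = r)
    (hRP : Disjoint R P) {v : V} (hv : v ∈ W) (hinv : Inv t R v) {x : ℕ} (hxR : x ∉ R)
    (hxP : x ∉ P) : ∑ y ∈ R, t x y v = -v := by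
  have h1 := h.inv_insert hinv hxR
  have h2 : v + ∑ y ∈ R, t x y v ∈ W := by
    apply W.add_mem hv
    apply W.sum_mem
    intro y hy
    exact hW x y (fun e => hxR (e ▸ hy)) hxP (Finset.disjoint_left.mp hRP hy) v hv
  have h3 := hno (insert x R) (by rw [Finset.card_insert_of_notMem hxR, hR])
    (by rw [Finset.disjoint_insert_left]; exact ⟨hxP, hRP⟩) _ h2 h1
  rw [add_comm] at h3
  exact eq_neg_of_add_eq_zero_left h3

/-- Building a sign invariant vector along a transversal of the rows. -/
theorem column {t : ℕ → ℕ → V →+ V} (h : Transp t) (htf : ∀ (n : ℕ) (v : V), n ≠ 0 → n • v = 0 → v = 0)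
    {P : Finset ℕ} {W : AddSubgroup V}
    (hW : Stable t P W) {r : ℕ} (hr : r ≠ 0) (hno : NoInv t P W (r+1)) {k : ℕ}
    (R : ℕ → Finset ℕ) (hcard : ∀ i < k, (R i).card = r) (hRP : ∀ i < k, Disjoint (R i) P)
    (hdisj : ∀ i < k, ∀ j < k, i ≠ j → Disjoint (R i) (R j)) {w : V} (hw : w ∈ W) (hw0 : w ≠ 0)
    (hinv : ∀ i < k, Inv t (R i) w) :
    ∀ j ≤ k, ∃ C : Finset ℕ, C.card = j ∧ Disjoint C P ∧
      (∀ i, j ≤ i → i < k → Disjoint C (R i)) ∧
      ∃ u ∈ W, u ≠ 0 ∧ Inv (fun x y => -(t x y)) C u ∧ ∀ i, j ≤ i → i < k → Inv t (R i) u := by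
  intro j
  induction j with
  | zero =>
    intro _
    refine ⟨∅, rfl, Finset.disjoint_empty_left _, fun i _ _ => Finset.disjoint_empty_left _, w, hw,
      hw0, ?_, fun i _ hi => hinv i hi⟩
    intro x hx
    simp at hx
  | succ j ih =>
    intro hj
    obtain ⟨C, hC, hCP, hCR, u, huW, hu0, hsgn, hu⟩ := ih (by omega)
    have hjk : j < k := by omega
    have hCj : Disjoint C (R j) := hCR j le_rfl hjk
    -- the sum over the row is nonzero
    have hsum : ∑ y ∈ R j, (u - ∑ x ∈ C, t y x u) = (r + j) • u := by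
      rw [Finset.sum_sub_distrib, Finset.sum_const, hcard j hjk, Finset.sum_comm]
      have : ∀ x ∈ C, ∑ y ∈ R j, t y x u = -u := by
        intro x hx
        have hxR : x ∉ R j := Finset.disjoint_left.mp hCj hx
        have hxP : x ∉ P := Finset.disjoint_left.mp hCP hx
        rw [← garnir h hW hno (hcard j hjk) (hRP j hjk) huW (hu j le_rfl hjk) hxR hxP]
        apply Finset.sum_congr rfl
        intro y hy
        exact h.symm y x (fun e => hxR (e ▸ hy)) u
      rw [Finset.sum_congr rfl this, Finset.sum_const, hC, add_smul]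
      simp
    have hne : (r + j) • u ≠ 0 := fun e => hu0 (htf (r+j) u (by omega) e)
    rw [← hsum] at hne
    obtain ⟨y, hy, hy0⟩ := Finset.exists_ne_zero_of_sum_ne_zero hne
    have hyC : y ∉ C := fun hyC => Finset.disjoint_left.mp hCj hyC hy
    have hyP : y ∉ P := Finset.disjoint_left.mp (hRP j hjk) hy
    refine ⟨insert y C, by rw [Finset.card_insert_of_notMem hyC, hC], ?_, ?_, _, ?_, hy0, ?_, ?_⟩
    · rw [Finset.disjoint_insert_left]
      exact ⟨hyP, hCP⟩
    · intro i hi hik
      rw [Finset.disjoint_insert_left]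
      exact ⟨Finset.disjoint_left.mp (hdisj j hjk i hik (by omega)) hy, hCR i (by omega) hik⟩
    · apply W.sub_mem huW
      apply W.sum_mem
      intro x hx
      exact hW y x (fun e => hyC (e ▸ hx)) hyP (Finset.disjoint_left.mp hCP hx) u huW
    · exact h.sgn_insert hsgn hyC
    · intro i hi hik a ha b hb hab
      rw [map_sub, map_sum, hu i (by omega) hik a ha b hb hab]
      congr 1
      apply Finset.sum_congr rfl
      intro x hx
      have hyi : y ∉ R i := Finset.disjoint_left.mp (hdisj j hjk i hik (by omega)) hy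
      have hxi : x ∉ R i := Finset.disjoint_left.mp (hCR i (by omega) hik) hx
      have hyx : y ≠ x := fun e => hyC (e ▸ hx)
      have e1 : y ≠ a := fun e => hyi (e ▸ ha)
      have e2 : y ≠ b := fun e => hyi (e ▸ hb)
      have e3 : x ≠ a := fun e => hxi (e ▸ ha)
      have e4 : x ≠ b := fun e => hxi (e ▸ hb)
      rw [h.comm hab hyx e1 e2 e3 e4, hu i (by omega) hik a ha b hb hab]

theorem main_induction {t : ℕ → ℕ → V →+ V} (h : Transp t)
    (htf : ∀ (n : ℕ) (v : V), n ≠ 0 → n • v = 0 → v = 0) (k : ℕ) :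
    ∀ (r : ℕ) (P : Finset ℕ) (W : AddSubgroup V), Stable t P W → (∃ w ∈ W, w ≠ 0) →
      NoInv t P W (r+1) →
      ∃ C : Finset ℕ, C.card = k ∧ ∃ u : V, u ≠ 0 ∧ Inv (fun x y => -(t x y)) C u := by
  intro r
  induction r with
  | zero =>
    rintro P W _ ⟨w, hw, hw0⟩ hno
    exfalso
    obtain ⟨x, hx⟩ := Infinite.exists_notMem_finset P
    apply hw0
    apply hno {x} (by simp) (by simpa using hx) w hw
    intro a ha b hb hab
    simp at ha hb
    exact absurd (ha.trans hb.symm) hab
  | succ r ih =>
    rintro P W hW ⟨w, hw, hw0⟩ hno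
    -- T j : there are j rows
    let T : ℕ → Prop := fun j => ∃ R : ℕ → Finset ℕ, (∀ i < j, (R i).card = r+1) ∧
      (∀ i < j, Disjoint (R i) P) ∧ (∀ i < j, ∀ i' < j, i ≠ i' → Disjoint (R i) (R i')) ∧
      ∃ w ∈ W, w ≠ 0 ∧ ∀ i < j, Inv t (R i) w
    have hT0 : T 0 := ⟨fun _ => ∅, by simp, by simp, by simp, w, hw, hw0, by simp⟩
    by_cases hTk : T k
    · obtain ⟨R, h1, h2, h3, w, hw, hw0, h4⟩ := hTk
      obtain ⟨C, hC, _, _, u, _, hu0, hu, _⟩ :=
        column h htf hW (Nat.succ_ne_zero r) hno R h1 h2 h3 hw hw0 h4 k le_rfl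
      exact ⟨C, hC, u, hu0, hu⟩
    · -- a maximal number of rows
      have : ∃ j, T j ∧ ¬ T (j+1) := by
        by_contra hcon
        push Not at hcon
        have : ∀ j, T j := fun j => by
          induction j with
          | zero => exact hT0
          | succ j ihj => exact hcon j ihj
        exact hTk (this k)
      obtain ⟨j, ⟨R, h1, h2, h3, w, hw, hw0, h4⟩, hTj⟩ := this
      let P' : Finset ℕ := P ∪ (Finset.range j).biUnion R
      let W' : AddSubgroup V :=
        { carrier := {v | v ∈ W ∧ ∀ i < j, Inv t (R i) v}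
          add_mem' := by
            rintro a b ⟨ha, ha'⟩ ⟨hb, hb'⟩
            refine ⟨W.add_mem ha hb, fun i hi x hx y hy hxy => ?_⟩
            rw [map_add, ha' i hi x hx y hy hxy, hb' i hi x hx y hy hxy]
          zero_mem' := ⟨W.zero_mem, fun i hi x hx y hy hxy => map_zero _⟩
          neg_mem' := by
            rintro a ⟨ha, ha'⟩
            refine ⟨W.neg_mem ha, fun i hi x hx y hy hxy => ?_⟩
            rw [map_neg, ha' i hi x hx y hy hxy] }
      have hP'1 : ∀ x, x ∉ P' → x ∉ P := fun x hx hxP => hx (Finset.mem_union_left _ hxP)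
      have hP'2 : ∀ x, x ∉ P' → ∀ i < j, x ∉ R i := fun x hx i hi hxi =>
        hx (Finset.mem_union_right _ (Finset.mem_biUnion.mpr ⟨i, Finset.mem_range.mpr hi, hxi⟩))
      apply ih P' W'
      · rintro x y hxy hx hy v ⟨hv, hv'⟩
        refine ⟨hW x y hxy (hP'1 x hx) (hP'1 y hy) v hv, fun i hi a ha b hb hab => ?_⟩
        have hxi := hP'2 x hx i hi
        have hyi := hP'2 y hy i hi
        rw [h.comm hab hxy (fun e => hxi (e ▸ ha)) (fun e => hxi (e ▸ hb))
          (fun e => hyi (e ▸ ha)) (fun e => hyi (e ▸ hb)), hv' i hi a ha b hb hab]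
      · exact ⟨w, ⟨hw, h4⟩, hw0⟩
      · rintro S hS hSP v ⟨hv, hv'⟩ hinv
        by_contra hv0
        apply hTj
        refine ⟨fun i => if i < j then R i else S, ?_, ?_, ?_, v, hv, hv0, ?_⟩
        · intro i _
          by_cases hij : i < j
          · simp [hij, h1 i hij]
          · simp [hij, hS]
        · intro i _
          by_cases hij : i < j
          · simp [hij, h2 i hij]
          · simp only [hij, if_false]
            exact Disjoint.mono_right Finset.subset_union_left hSP
        · intro i hi i' hi' hii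
          have hSR : ∀ i < j, Disjoint S (R i) := by
            intro i hi
            rw [Finset.disjoint_left]
            intro x hx hxi
            exact Finset.disjoint_left.mp hSP hx (Finset.mem_union_right _
              (Finset.mem_biUnion.mpr ⟨i, Finset.mem_range.mpr hi, hxi⟩))
          by_cases hij : i < j <;> by_cases hij' : i' < j
          · simp [hij, hij', h3 i hij i' hij' hii]
          · simp [hij, hij', (hSR i hij).symm]
          · simp [hij, hij', hSR i' hij']
          · omega
        · intro i _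
          by_cases hij : i < j
          · simp only [hij, if_true]
            exact hv' i hij
          · simp only [hij, if_false]
            exact hinv

theorem move {t : ℕ → ℕ → V →+ V} (h : Transp t) {n : ℕ} :
    ∀ (m : ℕ) (S : Finset ℕ) (v : V), S.card = n → (S \ Finset.range n).card = m → v ≠ 0 →
      Inv t S v → ∃ v' : V, v' ≠ 0 ∧ Inv t (Finset.range n) v' := by
  intro m
  induction m with
  | zero =>
    intro S v hS hm hv hinv
    rw [Finset.card_eq_zero, Finset.sdiff_eq_empty_iff_subset] at hm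
    have : S = Finset.range n := Finset.eq_of_subset_of_card_le hm (by rw [hS, Finset.card_range])
    exact ⟨v, hv, this ▸ hinv⟩
  | succ m ih =>
    intro S v hS hm hv hinv
    have h1 : (S \ Finset.range n).Nonempty := Finset.card_pos.mp (by omega)
    obtain ⟨a, ha⟩ := h1
    rw [Finset.mem_sdiff] at ha
    have hcard : (Finset.range n \ S).card = m + 1 := by
      have e1 := Finset.card_sdiff_add_card_inter S (Finset.range n)
      have e2 := Finset.card_sdiff_add_card_inter (Finset.range n) S
      rw [Finset.inter_comm] at e2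
      rw [Finset.card_range] at e2
      omega
    have h2 : (Finset.range n \ S).Nonempty := Finset.card_pos.mp (by omega)
    obtain ⟨b, hb⟩ := h2
    rw [Finset.mem_sdiff] at hb
    have hab : a ≠ b := fun e => ha.2 (e ▸ hb.1)
    have hS' : S.image (swap a b) = insert b (S.erase a) := by
      ext x
      simp only [Finset.mem_image, Finset.mem_insert, Finset.mem_erase]
      constructor
      · rintro ⟨y, hy, rfl⟩
        rw [swap_apply_def]
        split_ifs with h1 h2
        · left; rfl
        · exact absurd (h2 ▸ hy) hb.2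
        · right; exact ⟨h1, hy⟩
      · rintro (rfl | ⟨hxa, hx⟩)
        · exact ⟨a, ha.1, swap_apply_left _ _⟩
        · refine ⟨x, hx, swap_apply_of_ne_of_ne hxa ?_⟩
          rintro rfl
          exact hb.2 hx
    apply ih (S.image (swap a b)) (t a b v)
    · rw [Finset.card_image_of_injective _ (swap a b).injective, hS]
    · have : S.image (swap a b) \ Finset.range n = (S \ Finset.range n).erase a := by
        rw [hS']
        ext x
        simp only [Finset.mem_sdiff, Finset.mem_insert, Finset.mem_erase]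
        constructor
        · rintro ⟨rfl | ⟨h1, h2⟩, h3⟩
          · exact absurd hb.1 h3
          · exact ⟨h1, h2, h3⟩
        · rintro ⟨h1, h2, h3⟩
          exact ⟨Or.inr ⟨h1, h2⟩, h3⟩
      rw [this, Finset.card_erase_of_mem (Finset.mem_sdiff.mpr ha), hm]
      rfl
    · intro e
      apply hv
      rw [← h.inv a b hab v, e, map_zero]
    · intro x hx y hy hxy
      rw [Finset.mem_image] at hx hy
      obtain ⟨x', hx', rfl⟩ := hx
      obtain ⟨y', hy', rfl⟩ := hy
      have hne : x' ≠ y' := fun e => hxy (by rw [e])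
      rw [← h.conj a b x' y' hab hne, hinv x' hx' y' hy' hne]

theorem core [Nontrivial V] {t : ℕ → ℕ → V →+ V} (h : Transp t)
    (htf : ∀ (n : ℕ) (v : V), n ≠ 0 → n • v = 0 → v = 0) (n : ℕ) :
    ∃ v : V, v ≠ 0 ∧ (Inv t (Finset.range n) v ∨ Inv (fun x y => -(t x y)) (Finset.range n) v) := by
  rcases Nat.eq_zero_or_pos n with rfl | hn
  · obtain ⟨v, hv⟩ := exists_ne (0 : V)
    exact ⟨v, hv, Or.inl (by intro x hx; simp at hx)⟩
  by_cases hex : ∃ S : Finset ℕ, S.card = n ∧ ∃ v : V, v ≠ 0 ∧ Inv t S v
  · obtain ⟨S, hS, v, hv, hinv⟩ := hex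
    obtain ⟨v', hv', h'⟩ := move h _ S v hS rfl hv hinv
    exact ⟨v', hv', Or.inl h'⟩
  · push Not at hex
    obtain ⟨w, hw⟩ := exists_ne (0 : V)
    obtain ⟨C, hC, u, hu0, hu⟩ := main_induction h htf n (n-1) ∅ ⊤
      (fun _ _ _ _ _ _ _ => AddSubgroup.mem_top _) ⟨w, AddSubgroup.mem_top _, hw⟩ (by
        intro S hS _ v _ hinv
        by_contra hv
        exact hex S (by omega) v hv hinv)
    obtain ⟨v', hv', h'⟩ := move h.neg _ C u hC rfl hu0 hu
    exact ⟨v', hv', Or.inr h'⟩

end Pool.Agent.H46.WC
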