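import Mathlib

set_option autoImplicit false

namespace Pool.Agent.H46.WC

open scoped ENNReal

/-- the Hilbert space `ℓ²(X)` -/
abbrev HH (X : Type) : Type := lp (fun _ : X => ℂ) 2

theorem memlp_comp {X : Type} (σ : Equiv.Perm X) {f : X → ℂ} (hf : Memℓp f 2) :
    Memℓp (fun x => f (σ x)) 2 := by
  rw [memℓp_gen_iff (by norm_num)] at hf ⊢
  exact (Equiv.summable_iff (f := fun i => ‖f i‖ ^ (2 : ℝ≥0∞).toReal) σ).mpr hf

/-- `f ↦ f ∘ σ` on `ℓ²(X)` -/
noncomputable def compPerm {X : Type} (σ : Equiv.Perm X) (f : HH X) : HH X :=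
  ⟨fun x => f (σ x), memlp_comp σ (lp.memℓp f)⟩

theorem compPerm_apply {X : Type} (σ : Equiv.Perm X) (f : HH X) (x : X) :
    compPerm σ f x = f (σ x) := rfl

theorem norm_compPerm {X : Type} (σ : Equiv.Perm X) (f : HH X) : ‖compPerm σ f‖ = ‖f‖ := by
  rw [lp.norm_eq_tsum_rpow (by norm_num), lp.norm_eq_tsum_rpow (by norm_num)]
  congr 1
  exact Equiv.tsum_eq σ (fun i => ‖f i‖ ^ (2 : ℝ≥0∞).toReal)

/-- The isometry of `ℓ²(X)` induced by a permutation -/
noncomputable def permIso {X : Type} (σ : Equiv.Perm X) : HH X ≃ₗᵢ[ℂ] HH X where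
  toFun f := compPerm σ.symm f
  invFun f := compPerm σ f
  map_add' f g := by
    apply lp.ext
    funext x
    rfl
  map_smul' c f := by
    apply lp.ext
    funext x
    rfl
  left_inv f := by
    apply lp.ext
    funext x
    simp [compPerm_apply]
  right_inv f := by
    apply lp.ext
    funext x
    simp [compPerm_apply]
  norm_map' f := norm_compPerm _ f

theorem permIso_apply {X : Type} (σ : Equiv.Perm X) (f : HH X) (x : X) :
    permIso σ f x = f (σ.symm x) := rfl

/-- The permutation representation on `ℓ²(X)` -/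
noncomputable def permRep (X : Type) : Equiv.Perm X →* unitary (HH X →L[ℂ] HH X) :=
  (Unitary.linearIsometryEquiv (𝕜 := ℂ) (H := HH X)).symm.toMonoidHom.comp
    { toFun := permIso
      map_one' := by
        ext f x
        rfl
      map_mul' := by
        intro σ τ
        ext f x
        rfl }

theorem permRep_apply {X : Type} (σ : Equiv.Perm X) (f : HH X) (x : X) :
    (permRep X σ : HH X →L[ℂ] HH X) f x = f (σ.symm x) := rfl

open Classical in
/-- basis vectors -/
noncomputable def ee {X : Type} (i : X) : HH X := lp.single 2 i (1 : ℂ)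

theorem ee_self {X : Type} (i : X) : ee i i = 1 := by
  unfold ee
  simp

theorem ee_ne {X : Type} {i j : X} (h : j ≠ i) : ee i j = 0 := by
  classical
  unfold ee
  rw [lp.single_apply]
  exact Pi.single_eq_of_ne h _

theorem permRep_ee {X : Type} (σ : Equiv.Perm X) (i : X) :
    (permRep X σ : HH X →L[ℂ] HH X) (ee i) = ee (σ i) := by
  apply lp.ext
  funext x
  rw [permRep_apply]
  by_cases h : x = σ i
  · subst h
    rw [Equiv.symm_apply_apply, ee_self, ee_self]
  · rw [ee_ne h, ee_ne]
    intro e
    apply h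
    rw [← e, Equiv.apply_symm_apply]

theorem ext_ee {X : Type} {S T : HH X →L[ℂ] HH X} (h : ∀ i, S (ee i) = T (ee i)) : S = T := by
  classical
  apply lp.ext_continuousLinearMap (by norm_num)
  intro i
  ext1
  simp only [ContinuousLinearMap.comp_apply, lp.singleContinuousLinearMap_apply]
  have := h i
  unfold ee at this
  convert this using 3

end Pool.Agent.H46.WC
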