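import Mathlib
import Pool.Agent.H46.WC.PermRep

set_option autoImplicit false

namespace Pool.Agent.H46.WC

open MonoidAlgebra

variable {G : Type} [Group G]

/-- The left regular representation. -/
noncomputable def lreg (G : Type) [Group G] : G →* unitary (HH G →L[ℂ] HH G) :=
  (permRep G).comp (MulAction.toPermHom G G)

theorem lreg_ee (g h : G) : (lreg G g : HH G →L[ℂ] HH G) (ee h) = ee (g * h) :=
  permRep_ee _ _

/-- The extension of a unitary representation to the group algebra. -/
noncomputable def lf {B : Type*} [CStarAlgebra B] (v : G →* unitary B) :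
    MonoidAlgebra ℂ G →ₐ[ℂ] B :=
  MonoidAlgebra.lift ℂ B G ((unitary B).subtype.comp v)

theorem lf_single {B : Type*} [CStarAlgebra B] (v : G →* unitary B) (g : G) (c : ℂ) :
    lf v (single g c) = c • (v g : B) := by
  simp [lf]

/-- elements of the regular representation applied to the unit vector -/
theorem lf_lreg_apply (x : MonoidAlgebra ℂ G) (g : G) :
    lf (lreg G) x (ee 1) g = x.coeff g := by
  induction x using MonoidAlgebra.induction_linear with
  | zero => simp
  | add x y hx hy =>
    rw [map_add, add_apply, lp.coeFn_add, Pi.add_apply, hx, hy]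
    simp
  | single h c =>
    rw [lf_single, _root_.smul_apply, lreg_ee, mul_one, lp.coeFn_smul,
      Pi.smul_apply]
    by_cases hgh : g = h
    · rw [hgh, ee_self]
      simp
    · rw [ee_ne hgh]
      simp [hgh]

theorem lf_lreg_injective : Function.Injective (lf (lreg G)) := by
  rw [injective_iff_map_eq_zero]
  intro x hx
  apply MonoidAlgebra.coeff_injective
  ext g
  rw [← lf_lreg_apply, hx]
  simp

/-- The star operation of the group algebra, as a relation -/
theorem exists_star (x : MonoidAlgebra ℂ G) : ∃ y : MonoidAlgebra ℂ G,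
    ∀ (B : Type) [CStarAlgebra B] (v : G →* unitary B), star (lf v x) = lf v y := by
  induction x using MonoidAlgebra.induction_linear with
  | zero => exact ⟨0, fun B _ v => by simp⟩
  | add x y hx hy =>
    obtain ⟨x', hx'⟩ := hx
    obtain ⟨y', hy'⟩ := hy
    exact ⟨x' + y', fun B _ v => by rw [map_add, star_add, hx' B v, hy' B v, map_add]⟩
  | single h c =>
    refine ⟨single h⁻¹ (star c), fun B _ v => ?_⟩
    rw [lf_single, lf_single, star_smul, map_inv]
    rfl

variable (hlf : ∀ s : Finset G, ∃ F : Subgroup G, Finite F ∧ (s : Set G) ⊆ F)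
include hlf

/-- If the image of `y` in the regular representation is invertible, then `y` is. -/
theorem isUnit_of_isUnit {y : MonoidAlgebra ℂ G} (hy : IsUnit (lf (lreg G) y)) : IsUnit y := by
  classical
  obtain ⟨F, hF, hFs⟩ := hlf y.coeff.support
  let W : Submodule ℂ (MonoidAlgebra ℂ G) := MonoidAlgebra.supported ℂ ℂ (F : Set G)
  have hyW : y ∈ W := hFs
  have hmul : ∀ w ∈ W, y * w ∈ W := by
    intro w hw
    show ↑(y * w).coeff.support ⊆ (F : Set G)
    intro g hg
    have h1 := MonoidAlgebra.support_coeff_mul_subset y w hg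
    rw [Finset.mem_mul] at h1
    obtain ⟨a, ha, b, hb, rfl⟩ := h1
    exact F.mul_mem (hyW ha) (hw hb)
  have hfin : FiniteDimensional ℂ W :=
    Module.Finite.equiv (MonoidAlgebra.supportedEquivFinsupp (R := ℂ) (S := ℂ) (F : Set G)).symm
  have hinj0 : ∀ w : MonoidAlgebra ℂ G, y * w = 0 → w = 0 := by
    intro w hw
    apply lf_lreg_injective
    rw [map_zero]
    have h1 : lf (lreg G) y * lf (lreg G) w = 0 := by rw [← map_mul, hw, map_zero]
    exact (hy.mul_right_eq_zero).mp h1
  let L : W →ₗ[ℂ] W := (LinearMap.mulLeft ℂ y).restrict hmul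
  have hinj : Function.Injective L := by
    rw [injective_iff_map_eq_zero]
    intro w hw
    apply Subtype.ext
    exact hinj0 w (congrArg Subtype.val hw)
  have hsurj := LinearMap.injective_iff_surjective.mp hinj
  have h1W : (1 : MonoidAlgebra ℂ G) ∈ W := by
    show ↑(1 : MonoidAlgebra ℂ G).coeff.support ⊆ (F : Set G)
    intro g hg
    rw [MonoidAlgebra.one_def] at hg
    have h2 := Finsupp.support_single_subset hg
    rw [Finset.mem_singleton] at h2
    rw [h2]
    exact F.one_mem
  obtain ⟨w, hw⟩ := hsurj ⟨1, h1W⟩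
  have hw1 : y * (w : MonoidAlgebra ℂ G) = 1 := congrArg Subtype.val hw
  have hw2 : (w : MonoidAlgebra ℂ G) * y = 1 := by
    have := hinj0 ((w : MonoidAlgebra ℂ G) * y - 1) (by
      rw [mul_sub, ← mul_assoc, hw1]; simp)
    exact sub_eq_zero.mp this
  exact ⟨⟨y, w, hw1, hw2⟩, rfl⟩

/-- The regular representation dominates every unitary representation. -/
theorem norm_le {B : Type} [CStarAlgebra B] (v : G →* unitary B) (x : MonoidAlgebra ℂ G) :
    ‖lf v x‖ ≤ ‖lf (lreg G) x‖ := by
  obtain ⟨y, hy⟩ := exists_star x
  have h1 : star (lf v x) * lf v x = lf v (y * x) := by rw [map_mul, hy B v]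
  have h2 : star (lf (lreg G) x) * lf (lreg G) x = lf (lreg G) (y * x) := by
    rw [map_mul, hy _ (lreg G)]
  have hspec : spectrum ℂ (lf v (y * x)) ⊆ spectrum ℂ (lf (lreg G) (y * x)) := by
    intro z hz hz'
    apply hz
    have h3 : algebraMap ℂ _ z - lf (lreg G) (y * x) =
        lf (lreg G) (algebraMap ℂ _ z - y * x) := by
      rw [map_sub, AlgHom.commutes]
    have h4 : algebraMap ℂ B z - lf v (y * x) =
        lf v (algebraMap ℂ _ z - y * x) := by
      rw [map_sub, AlgHom.commutes]
    have hz'' : IsUnit (algebraMap ℂ _ z - lf (lreg G) (y * x)) := hz'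
    rw [h3] at hz''
    show IsUnit (algebraMap ℂ B z - lf v (y * x))
    rw [h4]
    exact (isUnit_of_isUnit hlf hz'').map (lf v)
  have hr : spectralRadius ℂ (lf v (y * x)) ≤ spectralRadius ℂ (lf (lreg G) (y * x)) := by
    unfold spectralRadius
    exact biSup_mono fun k hk => hspec hk
  rw [← h1, ← h2, (IsSelfAdjoint.star_mul_self _).spectralRadius_eq_nnnorm,
    (IsSelfAdjoint.star_mul_self _).spectralRadius_eq_nnnorm, ENNReal.coe_le_coe,
    CStarRing.nnnorm_star_mul_self, CStarRing.nnnorm_star_mul_self] at hr
  have := (mul_self_le_mul_self_iff zero_le zero_le).mpr hr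
  exact_mod_cast this

omit hlf

/-- The *-algebra generated by the regular representation. -/
noncomputable def regAlg (G : Type) [Group G] : StarSubalgebra ℂ (HH G →L[ℂ] HH G) where
  toSubalgebra := (lf (lreg G)).range
  star_mem' := by
    rintro _ ⟨x, rfl⟩
    obtain ⟨y, hy⟩ := exists_star x
    exact ⟨y, (hy _ (lreg G)).symm⟩

/-- The norm closure of the regular representation of the group algebra. -/
abbrev CG (G : Type) [Group G] : Type := (regAlg G).topologicalClosure

noncomputable instance (G : Type) [Group G] : CStarAlgebra (CG G) :=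
  StarSubalgebra.cstarAlgebra _ (h_closed := (regAlg G).isClosed_topologicalClosure)

theorem lf_mem (x : MonoidAlgebra ℂ G) : lf (lreg G) x ∈ (regAlg G).topologicalClosure :=
  (regAlg G).le_topologicalClosure ⟨x, rfl⟩

theorem lreg_mem (g : G) : (lreg G g : HH G →L[ℂ] HH G) ∈ (regAlg G).topologicalClosure := by
  have := lf_mem (single g (1 : ℂ))
  rwa [lf_single, one_smul] at this

/-- The group algebra inside its completion. -/
noncomputable def emb (G : Type) [Group G] : MonoidAlgebra ℂ G →ₐ[ℂ] CG G :=
  (lf (lreg G)).codRestrict (regAlg G).topologicalClosure.toSubalgebra lf_mem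

theorem emb_coe (x : MonoidAlgebra ℂ G) : (emb G x : HH G →L[ℂ] HH G) = lf (lreg G) x := rfl

/-- The canonical unitaries. -/
noncomputable def uu (G : Type) [Group G] : G →* unitary (CG G) where
  toFun g := ⟨⟨lreg G g, lreg_mem g⟩, by
    rw [Unitary.mem_iff]
    constructor
    · apply Subtype.ext
      exact Unitary.coe_star_mul_self (lreg G g)
    · apply Subtype.ext
      exact Unitary.coe_mul_star_self (lreg G g)⟩
  map_one' := by
    apply Subtype.ext
    apply Subtype.ext
    show (lreg G 1 : HH G →L[ℂ] HH G) = 1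
    rw [map_one]
    rfl
  map_mul' g h := by
    apply Subtype.ext
    apply Subtype.ext
    show (lreg G (g * h) : HH G →L[ℂ] HH G) = lreg G g * lreg G h
    rw [map_mul]
    rfl

theorem emb_single (g : G) (c : ℂ) : emb G (single g c) = c • (uu G g : CG G) := by
  apply Subtype.ext
  rw [emb_coe, lf_single]
  rfl

theorem emb_eq_lf : (emb G) = lf (uu G) := by
  apply MonoidAlgebra.algHom_ext
  · intro g
    rw [emb_single, lf_single]
  · exact Subsingleton.elim _ _

theorem emb_dense : DenseRange (emb G) := by
  intro x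
  rw [mem_closure_iff_seq_limit]
  have hx : (x : HH G →L[ℂ] HH G) ∈ closure ((regAlg G : Set (HH G →L[ℂ] HH G))) := x.2
  rw [mem_closure_iff_seq_limit] at hx
  obtain ⟨s, hs, hlim⟩ := hx
  choose t ht using hs
  refine ⟨fun n => emb G (t n), fun n => ⟨t n, rfl⟩, ?_⟩
  rw [tendsto_subtype_rng]
  refine hlim.congr fun n => ?_
  rw [emb_coe]
  exact (ht n).symm

theorem span_dense : Dense (Submodule.span ℂ (Set.range fun g => (uu G g : CG G)) : Set (CG G)) := by
  apply (emb_dense (G := G)).mono
  rintro _ ⟨x, rfl⟩
  induction x using MonoidAlgebra.induction_linear with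
  | zero => simp
  | add x y hx hy =>
    rw [map_add]
    exact Submodule.add_mem _ hx hy
  | single h c =>
    rw [emb_single]
    exact Submodule.smul_mem _ _ (Submodule.subset_span ⟨h, rfl⟩)

include hlf

/-- The universal property of the full group C*-algebra. -/
theorem universal (B : Type) [CStarAlgebra B] (v : G →* unitary B) :
    ∃! φ : CG G →⋆ₐ[ℂ] B, ∀ g, φ (uu G g : CG G) = (v g : B) := by
  have hbound : ∀ x : MonoidAlgebra ℂ G, ‖(lf v).toLinearMap x‖ ≤ 1 * ‖(emb G).toLinearMap x‖ := by
    intro x
    rw [one_mul]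
    exact norm_le hlf v x
  have hd : DenseRange (emb G).toLinearMap := emb_dense
  let φ : CG G →L[ℂ] B := (lf v).toLinearMap.extendOfNorm (emb G).toLinearMap
  have hφ : ∀ x, φ (emb G x) = lf v x := fun x =>
    LinearMap.extendOfNorm_eq (f := (lf v).toLinearMap) (e := (emb G).toLinearMap) hd ⟨1, hbound⟩ x
  have hφ1 : φ 1 = 1 := by
    have := hφ 1
    rwa [map_one (emb G), map_one (lf v)] at this
  have hφm : ∀ a b, φ (a * b) = φ a * φ b := by
    intro a b
    refine DenseRange.induction_on₂ (p := fun a b => φ (a * b) = φ a * φ b) (emb_dense (G := G))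
      ?_ ?_ a b
    · exact isClosed_eq (by fun_prop) (by fun_prop)
    · intro x y
      rw [← map_mul, hφ, hφ, hφ, map_mul]
  have hφs : ∀ a, φ (star a) = star (φ a) := by
    intro a
    refine DenseRange.induction_on (p := fun a => φ (star a) = star (φ a)) (emb_dense (G := G))
      a ?_ ?_
    · exact isClosed_eq (by fun_prop) (by fun_prop)
    · intro x
      obtain ⟨y, hy⟩ := exists_star x
      have h1 : star (emb G x) = emb G y := by
        rw [emb_eq_lf]
        exact hy _ (uu G)
      rw [h1, hφ, hφ]
      exact (hy _ v).symm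
  let ψ : CG G →⋆ₐ[ℂ] B :=
    { toFun := φ
      map_one' := hφ1
      map_mul' := hφm
      map_zero' := map_zero φ
      map_add' := map_add φ
      commutes' := by
        intro c
        rw [Algebra.algebraMap_eq_smul_one, map_smul, hφ1, Algebra.algebraMap_eq_smul_one]
      map_star' := hφs }
  refine ⟨ψ, ?_, ?_⟩
  · intro g
    have := hφ (single g 1)
    rw [emb_single, lf_single, one_smul, one_smul] at this
    exact this
  · intro χ hχ
    have hχc : Continuous χ := by
      apply AddMonoidHomClass.continuous_of_bound χ 1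
      intro a
      rw [one_mul]
      exact NonUnitalStarAlgHom.norm_apply_le χ a
    ext a
    refine DenseRange.induction_on (p := fun a => χ a = ψ a) (emb_dense (G := G)) a ?_ ?_
    · exact isClosed_eq hχc φ.continuous
    · intro x
      show χ (emb G x) = φ (emb G x)
      rw [hφ]
      have : (χ : CG G →ₐ[ℂ] B).comp (emb G) = lf v := by
        apply MonoidAlgebra.algHom_ext
        · intro g
          rw [lf_single, one_smul]
          show χ (emb G (single g 1)) = v g
          rw [emb_single, one_smul, hχ]
        · exact Subsingleton.elim _ _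
      exact congrArg (fun f : MonoidAlgebra ℂ G →ₐ[ℂ] B => f x) this

end Pool.Agent.H46.WC
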