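import Mathlib
import Pool.Agent.H46.WC.Core

set_option autoImplicit false

namespace Pool.Agent.H46.WC

open Equiv

/-- Products of two transpositions with entries below `M`. -/
def gens (M : ℕ) : Set (Perm ℕ) :=
  {σ | ∃ a b c d : ℕ, a < M ∧ b < M ∧ c < M ∧ d < M ∧ a ≠ b ∧ c ≠ d ∧ σ = swap a b * swap c d}

/-- The finitary alternating group of `ℕ`: the subgroup of the group of all permutations
of `ℕ` generated by the products of two transpositions. -/
def altFin : Subgroup (Perm ℕ) :=
  Subgroup.closure {σ | ∃ a b c d : ℕ, a ≠ b ∧ c ≠ d ∧ σ = swap a b * swap c d}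

theorem double_mem {a b c d : ℕ} (hab : a ≠ b) (hcd : c ≠ d) :
    swap a b * swap c d ∈ altFin :=
  Subgroup.subset_closure ⟨a, b, c, d, hab, hcd, rfl⟩

theorem gens_mono {M N : ℕ} (h : M ≤ N) : gens M ⊆ gens N := by
  rintro σ ⟨a, b, c, d, ha, hb, hc, hd, hab, hcd, rfl⟩
  exact ⟨a, b, c, d, by omega, by omega, by omega, by omega, hab, hcd, rfl⟩

theorem mem_closure_gens {σ : Perm ℕ} (h : σ ∈ altFin) :
    ∃ M, σ ∈ Subgroup.closure (gens M) := by
  unfold altFin at h
  induction h using Subgroup.closure_induction with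
  | mem x hx =>
    obtain ⟨a, b, c, d, hab, hcd, rfl⟩ := hx
    refine ⟨a + b + c + d + 1, Subgroup.subset_closure
      ⟨a, b, c, d, by omega, by omega, by omega, by omega, hab, hcd, rfl⟩⟩
  | one => exact ⟨0, one_mem _⟩
  | mul x y _ _ hx hy =>
    obtain ⟨M, hM⟩ := hx
    obtain ⟨N, hN⟩ := hy
    exact ⟨max M N, mul_mem (Subgroup.closure_mono (gens_mono (le_max_left _ _)) hM)
      (Subgroup.closure_mono (gens_mono (le_max_right _ _)) hN)⟩
  | inv x _ hx =>
    obtain ⟨M, hM⟩ := hx
    exact ⟨M, inv_mem hM⟩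

/-- An injection of `ℕ` missing `M` and `M+1`, equal to the identity below `M`. -/
def iot (M i : ℕ) : ℕ := if i < M then i else i + 2

theorem iot_inj (M : ℕ) : Function.Injective (iot M) := by
  intro a b h
  unfold iot at h
  split_ifs at h <;> omega

theorem iot_ne (M i : ℕ) : iot M i ≠ M ∧ iot M i ≠ M + 1 := by
  unfold iot
  split_ifs <;> omega

/-- the even permutation attached to a transposition -/
def cc (M x y : ℕ) : Perm ℕ := swap (iot M x) (iot M y) * swap M (M+1)

theorem cc_mem {M x y : ℕ} (h : x ≠ y) : cc M x y ∈ altFin :=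
  double_mem (fun e => h (iot_inj M e)) (by omega)

theorem cc_comm (M x y : ℕ) :
    swap M (M+1) * swap (iot M x) (iot M y) = swap (iot M x) (iot M y) * swap M (M+1) := by
  rw [mul_swap_eq_swap_mul, swap_apply_of_ne_of_ne (iot_ne M x).1 (iot_ne M x).2,
    swap_apply_of_ne_of_ne (iot_ne M y).1 (iot_ne M y).2]

theorem cc_mul (M a b x y : ℕ) :
    cc M a b * cc M x y = swap (iot M a) (iot M b) * swap (iot M x) (iot M y) := by
  unfold cc
  rw [mul_assoc, ← mul_assoc (swap M (M+1)), cc_comm, mul_assoc, swap_mul_self, mul_one]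

theorem cc_conj (M a b x y : ℕ) :
    cc M a b * cc M x y = cc M (swap a b x) (swap a b y) * cc M a b := by
  rw [cc_mul, cc_mul, mul_swap_eq_swap_mul, (iot_inj M).map_swap, (iot_inj M).map_swap]

section ring

variable {V : Type*} [Ring V] (v : altFin →* V)

open Classical in
/-- extension of `v` by zero -/
noncomputable def ext0 (σ : Perm ℕ) : V := if h : σ ∈ altFin then v ⟨σ, h⟩ else 0

theorem ext0_mem {σ : Perm ℕ} (h : σ ∈ altFin) : ext0 v σ = v ⟨σ, h⟩ := by
  unfold ext0
  rw [dif_pos h]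

theorem ext0_mul {σ τ : Perm ℕ} (hσ : σ ∈ altFin) (hτ : τ ∈ altFin) :
    ext0 v (σ * τ) = ext0 v σ * ext0 v τ := by
  rw [ext0_mem v hσ, ext0_mem v hτ, ext0_mem v (mul_mem hσ hτ), ← map_mul]
  rfl

/-- the transposition operators -/
noncomputable def tt (M x y : ℕ) : V →+ V := AddMonoidHom.mulLeft (ext0 v (cc M x y))

theorem tt_transp (M : ℕ) : Transp (tt v M) where
  symm x y _ w := by
    simp only [tt, cc, swap_comm]
  inv x y hxy w := by
    show ext0 v (cc M x y) * (ext0 v (cc M x y) * w) = w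
    rw [← mul_assoc, ← ext0_mul v (cc_mem hxy) (cc_mem hxy), cc_mul, swap_mul_self,
      ext0_mem v (one_mem _)]
    have : (⟨1, one_mem _⟩ : altFin) = 1 := rfl
    rw [this, map_one, one_mul]
  conj a b x y hab hxy w := by
    show ext0 v (cc M a b) * (ext0 v (cc M x y) * w) =
      ext0 v (cc M (swap a b x) (swap a b y)) * (ext0 v (cc M a b) * w)
    have hne : swap a b x ≠ swap a b y := fun e => hxy ((swap a b).injective e)
    rw [← mul_assoc, ← mul_assoc, ← ext0_mul v (cc_mem hab) (cc_mem hxy),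
      ← ext0_mul v (cc_mem hne) (cc_mem hab), cc_conj]

/-- In any nonzero ring (without torsion) with a homomorphism from the finitary alternating group,
there is a nonzero element fixed by all double transpositions below `M`. -/
theorem exists_fixed [Nontrivial V] (htf : ∀ (n : ℕ) (w : V), n ≠ 0 → n • w = 0 → w = 0) (M : ℕ) :
    ∃ w : V, w ≠ 0 ∧ ∀ σ ∈ Subgroup.closure (gens M), ∀ h : σ ∈ altFin, v ⟨σ, h⟩ * w = w := by
  obtain ⟨w, hw, hinv⟩ := core (tt_transp v M) htf M
  have key : ∀ a b c d : ℕ, a < M → b < M → c < M → d < M → a ≠ b → c ≠ d →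
      tt v M a b (tt v M c d w) = w := by
    intro a b c d ha hb hc hd hab hcd
    rcases hinv with hinv | hinv
    · rw [hinv c (Finset.mem_range.mpr hc) d (Finset.mem_range.mpr hd) hcd,
        hinv a (Finset.mem_range.mpr ha) b (Finset.mem_range.mpr hb) hab]
    · have h1 := hinv c (Finset.mem_range.mpr hc) d (Finset.mem_range.mpr hd) hcd
      have h2 := hinv a (Finset.mem_range.mpr ha) b (Finset.mem_range.mpr hb) hab
      simp only [AddMonoidHom.neg_apply] at h1 h2
      rw [neg_eq_iff_eq_neg] at h1 h2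
      rw [h1, map_neg, h2, neg_neg]
  refine ⟨w, hw, ?_⟩
  intro σ hσ
  have hle : Subgroup.closure (gens M) ≤ altFin := by
    rw [Subgroup.closure_le]
    rintro τ ⟨a, b, c, d, _, _, _, _, hab, hcd, rfl⟩
    exact double_mem hab hcd
  induction hσ using Subgroup.closure_induction with
  | mem x hx =>
    intro h
    obtain ⟨a, b, c, d, ha, hb, hc, hd, hab, hcd, rfl⟩ := hx
    have := key a b c d ha hb hc hd hab hcd
    have h2 : ext0 v (cc M a b) * (ext0 v (cc M c d) * w) = w := this
    rw [← mul_assoc, ← ext0_mul v (cc_mem hab) (cc_mem hcd), cc_mul] at h2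
    have e : ∀ i, i < M → iot M i = i := fun i hi => by simp [iot, hi]
    rw [e a ha, e b hb, e c hc, e d hd, ext0_mem v h] at h2
    exact h2
  | one =>
    intro h
    have : (⟨1, h⟩ : altFin) = 1 := rfl
    rw [this, map_one, one_mul]
  | mul x y hx hy ihx ihy =>
    intro h
    have : (⟨x * y, h⟩ : altFin) = ⟨x, hle hx⟩ * ⟨y, hle hy⟩ := rfl
    rw [this, map_mul, mul_assoc, ihy (hle hy), ihx (hle hx)]
  | inv x hx ihx =>
    intro h
    have h1 := ihx (hle hx)
    have : (⟨x⁻¹, h⟩ : altFin) = (⟨x, hle hx⟩)⁻¹ := rfl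
    rw [this]
    calc v (⟨x, hle hx⟩)⁻¹ * w = v (⟨x, hle hx⟩)⁻¹ * (v ⟨x, hle hx⟩ * w) := by rw [h1]
      _ = w := by rw [← mul_assoc, ← map_mul, inv_mul_cancel, map_one, one_mul]

end ring

/-- Every proper two-sided ideal is contained in the kernel of the trivial character. -/
theorem ideal_le {A : Type*} [CStarAlgebra A] (u : altFin →* unitary A) (ε : A →⋆ₐ[ℂ] ℂ)
    (hε : ∀ g, ε (u g : A) = 1)
    (hd : Dense (Submodule.span ℂ (Set.range fun g => (u g : A)) : Set A))
    (I : TwoSidedIdeal A) (hI : I ≠ ⊤) {a : A} (ha : a ∈ I) : ε a = 0 := by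
  by_contra hne
  have hpos : 0 < ‖ε a‖ := norm_pos_iff.mpr hne
  obtain ⟨x, hx, hxa⟩ := Metric.mem_closure_iff.mp (hd a) (‖ε a‖ / 2) (by positivity)
  rw [dist_eq_norm] at hxa
  let q : A →+* I.ringCon.Quotient := I.ringCon.mk'
  have hq : ∀ y, q y = 0 ↔ y ∈ I := by
    intro y
    rw [← TwoSidedIdeal.mem_ker, TwoSidedIdeal.ker_ringCon_mk']
  have hone : (1 : A) ∉ I := by
    intro h1
    exact hI (I.one_mem_iff.mp h1)
  have hnt : Nontrivial I.ringCon.Quotient := by
    refine ⟨⟨q 1, q 0, ?_⟩⟩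
    intro h
    rw [map_zero, hq] at h
    exact hone h
  have htf : ∀ (n : ℕ) (w : I.ringCon.Quotient), n ≠ 0 → n • w = 0 → w = 0 := by
    intro n w hn h
    obtain ⟨y, rfl⟩ := I.ringCon.mk'_surjective w
    have h1 : q ((algebraMap ℂ A ((n : ℂ)⁻¹))) * (n • q y) = q y := by
      rw [← map_nsmul, ← map_mul]
      congr 1
      rw [nsmul_eq_mul, ← mul_assoc]
      have : (n : A) = algebraMap ℂ A n := by simp
      rw [this, ← map_mul, inv_mul_cancel₀ (Nat.cast_ne_zero.mpr hn), map_one, one_mul]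
    have h2 : (n • q y) = 0 := h
    rw [h2, mul_zero] at h1
    exact h1.symm
  -- the key property of elements of the span
  have key : ∀ x ∈ Submodule.span ℂ (Set.range fun g => (u g : A)), ∃ M : ℕ, ∀ N, M ≤ N →
      ∀ w : I.ringCon.Quotient,
      (∀ σ ∈ Subgroup.closure (gens N), ∀ h : σ ∈ altFin, q (u ⟨σ, h⟩ : A) * w = w) →
      q x * w = q (algebraMap ℂ A (ε x)) * w := by
    intro x hx
    induction hx using Submodule.span_induction with
    | mem x hx =>
      obtain ⟨g, rfl⟩ := hx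
      obtain ⟨M, hM⟩ := mem_closure_gens g.2
      refine ⟨M, fun N hN w hw => ?_⟩
      have := hw g.1 (Subgroup.closure_mono (gens_mono hN) hM) g.2
      simp only [hε, map_one, one_mul]
      exact this
    | zero => exact ⟨0, fun N _ w _ => by simp⟩
    | add x y _ _ hx hy =>
      obtain ⟨M, hM⟩ := hx
      obtain ⟨M', hM'⟩ := hy
      refine ⟨max M M', fun N hN w hw => ?_⟩
      rw [map_add, add_mul, hM N (le_trans (le_max_left _ _) hN) w hw,
        hM' N (le_trans (le_max_right _ _) hN) w hw, map_add, map_add, map_add, add_mul]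
    | smul c x _ hx =>
      obtain ⟨M, hM⟩ := hx
      refine ⟨M, fun N hN w hw => ?_⟩
      rw [Algebra.smul_def, map_mul, mul_assoc, hM N hN w hw, ← mul_assoc, ← map_mul, ← map_mul]
      congr 3
      rw [← Algebra.smul_def, map_smul, smul_eq_mul]
  obtain ⟨M, hM⟩ := key x hx
  obtain ⟨w, hw0, hw⟩ := exists_fixed (V := I.ringCon.Quotient)
    ((q : A →* I.ringCon.Quotient).comp ((unitary A).subtype.comp u)) htf M
  have h1 := hM M le_rfl w hw
  have hεx : ‖ε a‖ / 2 < ‖ε x‖ := by
    have h2 : ‖ε (a - x)‖ ≤ ‖a - x‖ := NonUnitalStarAlgHom.norm_apply_le ε _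
    rw [map_sub] at h2
    have h3 := norm_sub_norm_le (ε a) (ε x)
    linarith
  have hεx0 : ε x ≠ 0 := by
    intro h
    rw [h, norm_zero] at hεx
    linarith
  -- the invertible element
  have hunit : IsUnit (algebraMap ℂ A (ε x) + (a - x)) := by
    have e : algebraMap ℂ A (ε x) + (a - x) =
        algebraMap ℂ A (ε x) * (1 - (-((ε x)⁻¹ • (a - x)))) := by
      rw [sub_neg_eq_add, mul_add, mul_one, Algebra.smul_def, ← mul_assoc, ← map_mul,
        mul_inv_cancel₀ hεx0, map_one, one_mul]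
    rw [e]
    apply IsUnit.mul
    · exact (IsUnit.mk0 _ hεx0).map (algebraMap ℂ A)
    · apply isUnit_one_sub_of_norm_lt_one
      rw [norm_neg, norm_smul, norm_inv, inv_mul_lt_iff₀ (by positivity), mul_one]
      linarith
  have h4 : q (algebraMap ℂ A (ε x) + (a - x)) * w = 0 := by
    rw [map_add, map_sub, add_mul, sub_mul, h1, (hq a).mpr ha, zero_mul]
    abel
  obtain ⟨y, hy⟩ := hunit.exists_left_inv
  apply hw0
  calc w = q (y * (algebraMap ℂ A (ε x) + (a - x))) * w := by rw [hy, map_one, one_mul]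
    _ = 0 := by rw [map_mul, mul_assoc, h4, mul_zero]

end Pool.Agent.H46.WC
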