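import Mathlib
import Pool.Agent.H46.WC.Ideal

set_option autoImplicit false

namespace Pool.Agent.H46.WC

open Equiv

/-- The permutations fixing all points from `M` on. -/
def fixFrom (M : ℕ) : Subgroup (Perm ℕ) where
  carrier := {σ | ∀ n, M ≤ n → σ n = n}
  one_mem' := fun _ _ => rfl
  mul_mem' := by
    intro σ τ hσ hτ n hn
    rw [Perm.mul_apply, hτ n hn, hσ n hn]
  inv_mem' := by
    intro σ hσ n hn
    rw [Perm.inv_eq_iff_eq, hσ n hn]

theorem fixFrom_mono {M N : ℕ} (h : M ≤ N) : fixFrom M ≤ fixFrom N :=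
  fun _ hσ n hn => hσ n (h.trans hn)

theorem fixFrom_finite (M : ℕ) : Finite (fixFrom M) := by
  have hlt : ∀ σ : fixFrom M, ∀ i : Fin M, σ.1 i < M := by
    intro σ i
    by_contra h
    push Not at h
    have h1 := σ.2 (σ.1 i) h
    have h2 := σ.1.injective h1
    have := i.2
    omega
  refine Finite.of_injective (fun σ : fixFrom M => fun i : Fin M => (⟨σ.1 i, hlt σ i⟩ : Fin M)) ?_
  intro σ τ h
  apply Subtype.ext
  ext n
  by_cases hn : n < M
  · have := congrFun h ⟨n, hn⟩
    simpa using this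
  · push Not at hn
    rw [σ.2 n hn, τ.2 n hn]

theorem gens_le_fixFrom (M : ℕ) : Subgroup.closure (gens M) ≤ fixFrom M := by
  rw [Subgroup.closure_le]
  rintro σ ⟨a, b, c, d, ha, hb, hc, hd, _, _, rfl⟩ n hn
  rw [Perm.mul_apply, swap_apply_of_ne_of_ne (by omega : n ≠ c) (by omega),
    swap_apply_of_ne_of_ne (by omega) (by omega)]

theorem altFin_locFin (s : Finset altFin) :
    ∃ F : Subgroup altFin, Finite F ∧ (s : Set altFin) ⊆ F := by
  have : ∃ M : ℕ, ∀ g ∈ s, (g : Perm ℕ) ∈ fixFrom M := by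
    classical
    induction s using Finset.induction_on with
    | empty => exact ⟨0, fun g hg => by simp at hg⟩
    | insert a s _ ih =>
      obtain ⟨M, hM⟩ := ih
      obtain ⟨N, hN⟩ := mem_closure_gens a.2
      refine ⟨max M N, fun g hg => ?_⟩
      rw [Finset.mem_insert] at hg
      rcases hg with rfl | hg
      · exact fixFrom_mono (le_max_right _ _) (gens_le_fixFrom N hN)
      · exact fixFrom_mono (le_max_left _ _) (hM g hg)
  obtain ⟨M, hM⟩ := this
  refine ⟨(fixFrom M).comap altFin.subtype, ?_, fun g hg => hM g hg⟩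
  have := fixFrom_finite M
  refine Finite.of_injective
    (fun g : (fixFrom M).comap altFin.subtype => (⟨(g.1 : Perm ℕ), g.2⟩ : fixFrom M)) ?_
  intro g h hgh
  apply Subtype.ext
  apply Subtype.ext
  exact congrArg (fun t : fixFrom M => (t : Perm ℕ)) hgh

end Pool.Agent.H46.WC
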