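import Mathlib
import Pool.Agent.H46.WC.Ideal
import Pool.Agent.H46.WC.PermRep

set_option autoImplicit false

namespace Pool.Agent.H46.WC

open Equiv
open scoped ENNReal InnerProductSpace

/-- The natural representation of the finitary alternating group on `ℓ²(ℕ)`. -/
noncomputable def natRep : altFin →* unitary (HH ℕ →L[ℂ] HH ℕ) :=
  (permRep ℕ).comp altFin.subtype

theorem natRep_ee (g : altFin) (i : ℕ) :
    (natRep g : HH ℕ →L[ℂ] HH ℕ) (ee i) = ee (g.1 i) := permRep_ee g.1 i

theorem natRep_apply (g : altFin) (f : HH ℕ) (x : ℕ) :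
    (natRep g : HH ℕ →L[ℂ] HH ℕ) f x = f (g.1.symm x) := rfl

/-- The commutant of the natural representation is trivial. -/
theorem commutant {T : HH ℕ →L[ℂ] HH ℕ}
    (hT : ∀ g : altFin, T * (natRep g : HH ℕ →L[ℂ] HH ℕ) = (natRep g : HH ℕ →L[ℂ] HH ℕ) * T) :
    ∃ c : ℂ, T = c • (1 : HH ℕ →L[ℂ] HH ℕ) := by
  have h1 : ∀ (g : altFin) (j i : ℕ), T (ee (g.1 j)) (g.1 i) = T (ee j) i := by
    intro g j i
    have h := congrArg (fun S : HH ℕ →L[ℂ] HH ℕ => S (ee j) (g.1 i)) (hT g)
    simp only [mul_apply_eq_comp, natRep_ee, natRep_apply, symm_apply_apply] at h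
    exact h
  have h2 : ∀ j i i', i ≠ j → i' ≠ j → T (ee j) i = T (ee j) i' := by
    intro j i i' hi hi'
    by_cases hii : i = i'
    · rw [hii]
    set N := i + i' + j + 1 with hN
    have hm : swap i i' * swap N (N+1) ∈ altFin := double_mem hii (by omega)
    have h := h1 ⟨_, hm⟩ j i
    simp only [Perm.coe_mul, Function.comp_apply] at h
    rw [swap_apply_of_ne_of_ne (by omega : j ≠ N) (by omega : j ≠ N + 1),
      swap_apply_of_ne_of_ne (by omega : i ≠ N) (by omega : i ≠ N + 1),
      swap_apply_of_ne_of_ne hi.symm hi'.symm, swap_apply_left] at h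
    exact h.symm
  have h3 : ∀ j i, i ≠ j → T (ee j) i = 0 := by
    intro j i hij
    by_contra hne
    have hs : Summable fun x => ‖T (ee j) x‖ ^ (2 : ℝ≥0∞).toReal :=
      (lp.memℓp (T (ee j))).summable (by norm_num)
    have hs2 := hs.comp_injective (i := fun n : ℕ => n + (j + 1)) (add_left_injective _)
    have he : ((fun x => ‖T (ee j) x‖ ^ (2 : ℝ≥0∞).toReal) ∘ fun n : ℕ => n + (j + 1))
        = fun _ => ‖T (ee j) i‖ ^ (2 : ℝ≥0∞).toReal := by
      funext n
      simp only [Function.comp_apply]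
      rw [h2 j (n + (j+1)) i (by omega) hij]
    rw [he, summable_const_iff] at hs2
    have : 0 < ‖T (ee j) i‖ ^ (2 : ℝ≥0∞).toReal :=
      Real.rpow_pos_of_pos (norm_pos_iff.mpr hne) _
    exact this.ne' hs2
  have h4 : ∀ j, T (ee j) j = T (ee 0) 0 := by
    intro j
    by_cases hj : j = 0
    · rw [hj]
    have hm : swap 0 j * swap (j+1) (j+2) ∈ altFin := double_mem (Ne.symm hj) (by omega)
    have h := h1 ⟨_, hm⟩ 0 0
    simp only [Perm.coe_mul, Function.comp_apply] at h
    rw [swap_apply_of_ne_of_ne (by omega : 0 ≠ j + 1) (by omega : 0 ≠ j + 2),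
      swap_apply_left] at h
    exact h
  refine ⟨T (ee 0) 0, ext_ee fun i => ?_⟩
  apply lp.ext
  funext x
  show T (ee i) x = T (ee 0) 0 * ee i x
  by_cases hx : x = i
  · rw [hx, h4, ee_self, mul_one]
  · rw [h3 i x hx, ee_ne hx, mul_zero]

/-- The natural representation is irreducible. -/
theorem natRep_irred (K : Submodule ℂ (HH ℕ)) (hK : IsClosed (K : Set (HH ℕ)))
    (hinv : ∀ g : altFin, ∀ x ∈ K, (natRep g : HH ℕ →L[ℂ] HH ℕ) x ∈ K) : K = ⊥ ∨ K = ⊤ := by
  have : CompleteSpace K := hK.completeSpace_coe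
  have hcomm : ∀ g : altFin, K.starProjection * (natRep g : HH ℕ →L[ℂ] HH ℕ) =
      (natRep g : HH ℕ →L[ℂ] HH ℕ) * K.starProjection := by
    intro g
    ext1 y
    simp only [mul_apply_eq_comp]
    apply Submodule.eq_starProjection_of_mem_of_inner_eq_zero
    · exact hinv g _ (Submodule.starProjection_apply_mem K y)
    · intro w hw
      have h1 : (natRep g : HH ℕ →L[ℂ] HH ℕ) y - (natRep g : HH ℕ →L[ℂ] HH ℕ) (K.starProjection y)
          = (natRep g : HH ℕ →L[ℂ] HH ℕ) (y - K.starProjection y) := by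
        rw [map_sub]
      rw [h1]
      have h2 : star (natRep g : HH ℕ →L[ℂ] HH ℕ) = (natRep g⁻¹ : HH ℕ →L[ℂ] HH ℕ) := by
        rw [map_inv]
        rfl
      rw [← ContinuousLinearMap.adjoint_inner_right, ← ContinuousLinearMap.star_eq_adjoint, h2]
      exact Submodule.starProjection_inner_eq_zero y _ (hinv g⁻¹ w hw)
  obtain ⟨c, hc⟩ := commutant hcomm
  by_cases hc0 : c = 0
  · left
    rw [Submodule.eq_bot_iff]
    intro x hx
    have := Submodule.starProjection_eq_self_iff.mpr hx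
    rw [hc, hc0, zero_smul] at this
    exact this.symm
  · right
    rw [Submodule.eq_top_iff']
    intro x
    have h1 : K.starProjection x ∈ K := Submodule.starProjection_apply_mem K x
    rw [hc] at h1
    have h2 : c • x ∈ K := h1
    have := K.smul_mem c⁻¹ h2
    rwa [smul_smul, inv_mul_cancel₀ hc0, one_smul] at this

end Pool.Agent.H46.WC
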